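import Mathlib

/-!
# Taylor coefficients of Dirichlet series at `s = 2` (task W2 of helper79's project)
-/

set_option autoImplicit false

namespace Pool.Agent.K1H87.GE

open Complex LSeries Finset



/-- the real sums `∑ f(m) (log m)^i m^(-2)` -/
noncomputable def SR (f : ℕ → ℝ) (i : ℕ) : ℝ := ∑' m : ℕ, f m * (Real.log m) ^ i / (m : ℝ) ^ 2

/-- the complex sequence of a real one -/
def cc (f : ℕ → ℝ) : ℕ → ℂ := fun m => (f m : ℂ)

theorem logMul_iter (f : ℕ → ℝ) (i m : ℕ) :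
    (logMul^[i] (cc f)) m = ((Real.log m ^ i * f m : ℝ) : ℂ) := by
  induction i generalizing m with
  | zero => simp [cc]
  | succ i ih =>
    rw [Function.iterate_succ_apply']
    show Complex.log m * (logMul^[i] (cc f)) m = _
    rw [ih, ← Complex.natCast_log, pow_succ]
    push_cast
    ring

theorem term_logMul (f : ℕ → ℝ) (hf0 : f 0 = 0) (i m : ℕ) :
    LSeries.term (logMul^[i] (cc f)) 2 m = ((f m * (Real.log m) ^ i / (m : ℝ) ^ 2 : ℝ) : ℂ) := by
  rcases eq_or_ne m 0 with rfl | hm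
  · simp [hf0]
  · rw [term_of_ne_zero hm, logMul_iter]
    push_cast
    have : (m : ℂ) ^ (2 : ℂ) = (m : ℂ) ^ (2 : ℕ) := by
      rw [show (2 : ℂ) = ((2 : ℕ) : ℂ) by norm_num, Complex.cpow_natCast]
    rw [this]
    ring

theorem LSeries_SR (f : ℕ → ℝ) (hf0 : f 0 = 0) (i : ℕ) :
    LSeries (logMul^[i] (cc f)) 2 = (SR f i : ℂ) := by
  unfold LSeries SR
  rw [Complex.ofReal_tsum]
  exact tsum_congr (fun m => term_logMul f hf0 i m)

theorem summable_SR (f : ℕ → ℝ) (hf0 : f 0 = 0) (h : abscissaOfAbsConv (cc f) < ((2 : ℝ) : EReal)) (i : ℕ) :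
    Summable (fun m : ℕ => f m * (Real.log m) ^ i / (m : ℝ) ^ 2) := by
  have h1 : LSeriesSummable (logMul^[i] (cc f)) 2 := by
    apply LSeriesSummable_of_abscissaOfAbsConv_lt_re
    rw [absicssaOfAbsConv_logPowMul]
    exact h
  unfold LSeriesSummable at h1
  have h2 : (fun m => LSeries.term (logMul^[i] (cc f)) 2 m) =
      fun m : ℕ => ((f m * (Real.log m) ^ i / (m : ℝ) ^ 2 : ℝ) : ℂ) := by
    funext m
    exact term_logMul f hf0 i m
  rw [show LSeries.term (logMul^[i] (cc f)) 2 = fun m : ℕ =>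
    ((f m * (Real.log m) ^ i / (m : ℝ) ^ 2 : ℝ) : ℂ) from h2] at h1
  exact Complex.summable_ofReal.mp h1

theorem absc_lt {f : ℕ → ℝ} {E : ℝ} (h : ∀ m : ℕ, |f m| ≤ E * (m : ℝ) ^ (1 / 4 : ℝ)) :
    abscissaOfAbsConv (cc f) < ((2 : ℝ) : EReal) := by
  have h1 : abscissaOfAbsConv (cc f) ≤ ((1 / 4 : ℝ) : EReal) + 1 := by
    apply abscissaOfAbsConv_le_of_le_const_mul_rpow
    refine ⟨E, fun n _ => ?_⟩
    simp only [cc, Complex.norm_real, Real.norm_eq_abs]
    exact h n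
  refine lt_of_le_of_lt h1 ?_
  have : ((1 / 4 : ℝ) : EReal) + 1 = ((5 / 4 : ℝ) : EReal) := by
    rw [show (1 : EReal) = ((1 : ℝ) : EReal) by norm_num, ← EReal.coe_add]
    norm_num
  rw [this, EReal.coe_lt_coe_iff]
  norm_num

/-- the real Dirichlet convolution -/
noncomputable def cv (a e : ℕ → ℝ) : ℕ → ℝ := fun m => ∑ d ∈ m.divisors, a d * e (m / d)

theorem cv_cc (a e : ℕ → ℝ) : LSeries.convolution (cc a) (cc e) = cc (cv a e) := by
  rw [convolution_def]
  funext m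
  simp only [cc, cv]
  rw [Nat.sum_divisorsAntidiagonal (fun i j => (a i : ℂ) * (e j : ℂ))]
  push_cast
  rfl

theorem iteratedDeriv_SR (f : ℕ → ℝ) (hf0 : f 0 = 0) (h : abscissaOfAbsConv (cc f) < ((2 : ℝ) : EReal)) (i : ℕ) :
    iteratedDeriv i (LSeries (cc f)) 2 = (-1) ^ i * (SR f i : ℂ) := by
  rw [LSeries_iteratedDeriv i (by simpa using h), LSeries_SR f hf0]

theorem analyticAt_two (f : ℕ → ℝ) (h : abscissaOfAbsConv (cc f) < ((2 : ℝ) : EReal)) :
    AnalyticAt ℂ (LSeries (cc f)) 2 := by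
  apply LSeries_analyticOnNhd (cc f)
  show abscissaOfAbsConv (cc f) < ((2 : ℂ).re : EReal)
  simpa using h

theorem eventually_conv (a e : ℕ → ℝ) (ha : abscissaOfAbsConv (cc a) < ((2 : ℝ) : EReal))
    (he : abscissaOfAbsConv (cc e) < ((2 : ℝ) : EReal)) :
    LSeries (cc (cv a e)) =ᶠ[nhds 2] (LSeries (cc a) * LSeries (cc e)) := by
  have hopen : IsOpen {s : ℂ | max (abscissaOfAbsConv (cc a)) (abscissaOfAbsConv (cc e)) < s.re} :=
    isOpen_re_gt_EReal _
  have hmem : (2 : ℂ) ∈ {s : ℂ | max (abscissaOfAbsConv (cc a)) (abscissaOfAbsConv (cc e)) < s.re} := by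
    show max _ _ < (((2 : ℂ).re : ℝ) : EReal)
    rw [max_lt_iff]
    constructor
    · simpa using ha
    · simpa using he
  filter_upwards [hopen.mem_nhds hmem] with s hs
  rw [← cv_cc]
  have hs' : max (abscissaOfAbsConv (cc a)) (abscissaOfAbsConv (cc e)) < s.re := hs
  rw [max_lt_iff] at hs'
  exact LSeries_convolution hs'.1 hs'.2

/-- Leibniz -/
theorem SR_conv (a e : ℕ → ℝ) (ha0 : a 0 = 0) (he0 : e 0 = 0)
    (ha : abscissaOfAbsConv (cc a) < ((2 : ℝ) : EReal)) (he : abscissaOfAbsConv (cc e) < ((2 : ℝ) : EReal)) (i : ℕ) :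
    SR (cv a e) i = ∑ j ∈ range (i + 1), (i.choose j : ℝ) * SR a j * SR e (i - j) := by
  have hab : abscissaOfAbsConv (cc (cv a e)) < ((2 : ℝ) : EReal) := by
    rw [← cv_cc]
    exact lt_of_le_of_lt (abscissaOfAbsConv_convolution_le _ _) (max_lt ha he)
  have h1 := iteratedDeriv_SR (cv a e) (by simp [cv]) hab i
  rw [(eventually_conv a e ha he).iteratedDeriv_eq,
    iteratedDeriv_mul (analyticAt_two a ha).contDiffAt (analyticAt_two e he).contDiffAt] at h1
  have h2 : (SR (cv a e) i : ℂ) = (-1) ^ i * ((-1) ^ i * (SR (cv a e) i : ℂ)) := by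
    rw [← mul_assoc, ← pow_add, ← two_mul, pow_mul]
    norm_num
  rw [← h1, Finset.mul_sum] at h2
  have h3 : ∀ j ∈ range (i + 1), (-1 : ℂ) ^ i * ((i.choose j : ℂ) *
      iteratedDeriv j (LSeries (cc a)) 2 * iteratedDeriv (i - j) (LSeries (cc e)) 2) =
      (((i.choose j : ℝ) * SR a j * SR e (i - j) : ℝ) : ℂ) := by
    intro j hj
    have hji : j ≤ i := by simpa [Nat.lt_succ_iff] using hj
    rw [iteratedDeriv_SR a ha0 ha, iteratedDeriv_SR e he0 he]
    have e1 : (-1 : ℂ) ^ i = (-1) ^ j * (-1) ^ (i - j) := by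
      rw [← pow_add, Nat.add_sub_cancel' hji]
    have e2 : ((-1 : ℂ) ^ j * (-1) ^ j) = 1 := by
      rw [← pow_add, ← two_mul, pow_mul]; norm_num
    have e3 : ((-1 : ℂ) ^ (i - j) * (-1) ^ (i - j)) = 1 := by
      rw [← pow_add, ← two_mul, pow_mul]; norm_num
    rw [e1]
    push_cast
    calc (-1 : ℂ) ^ j * (-1) ^ (i - j) * ((i.choose j : ℂ) * ((-1) ^ j * (SR a j : ℂ)) *
          ((-1) ^ (i - j) * (SR e (i - j) : ℂ)))
        = ((-1 : ℂ) ^ j * (-1) ^ j) * ((-1) ^ (i - j) * (-1) ^ (i - j)) *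
            ((i.choose j : ℂ) * (SR a j : ℂ) * (SR e (i - j) : ℂ)) := by ring
      _ = (i.choose j : ℂ) * (SR a j : ℂ) * (SR e (i - j) : ℂ) := by rw [e2, e3]; ring
  rw [Finset.sum_congr rfl h3, ← Complex.ofReal_sum] at h2
  exact_mod_cast h2

/-- Cauchy's estimate -/
theorem SR_cauchy (a : ℕ → ℝ) (ha0 : a 0 = 0) (ha : abscissaOfAbsConv (cc a) < ((2 : ℝ) : EReal)) (Lf : ℂ → ℂ)
    (hL : Differentiable ℂ Lf)
    (hsum : ∀ s : ℂ, 1 < s.re → HasSum (fun m : ℕ => (a m : ℂ) * (m : ℂ) ^ (-s)) (Lf s)) (R : ℝ)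
    (hR : ∀ s : ℂ, ‖s - 2‖ ≤ 2 → ‖Lf s‖ ≤ R) (j : ℕ) :
    |SR a j| ≤ j.factorial * R / 2 ^ j := by
  have hev : Lf =ᶠ[nhds 2] LSeries (cc a) := by
    have hopen : IsOpen {s : ℂ | 1 < s.re} := isOpen_lt continuous_const Complex.continuous_re
    have hmem : (2 : ℂ) ∈ {s : ℂ | 1 < s.re} := by
      show (1 : ℝ) < (2 : ℂ).re
      norm_num
    filter_upwards [hopen.mem_nhds hmem] with s hs
    have h1 := hsum s hs
    rw [← h1.tsum_eq]
    unfold LSeries
    refine tsum_congr (fun m => ?_)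
    rcases eq_or_ne m 0 with rfl | hm
    · simp [ha0]
    · rw [term_of_ne_zero hm, cpow_neg]
      rfl
  have h1 := iteratedDeriv_SR a ha0 ha j
  rw [← hev.iteratedDeriv_eq] at h1
  have h2 : ‖iteratedDeriv j Lf 2‖ ≤ j.factorial * R / 2 ^ j := by
    apply Complex.norm_iteratedDeriv_le_of_forall_mem_sphere_norm_le j (by norm_num)
      hL.diffContOnCl
    intro z hz
    apply hR
    rw [mem_sphere_iff_norm] at hz
    exact hz.le
  rw [h1, norm_mul, norm_pow, norm_neg, norm_one, one_pow, one_mul, Complex.norm_real,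
    Real.norm_eq_abs] at h2
  exact h2

/-- the upper bound of the Taylor coefficients of the product -/
theorem SR_upper (a e : ℕ → ℝ) (ha0 : a 0 = 0) (he0 : e 0 = 0) (hpos : ∀ m, 0 ≤ e m)
    (ha : abscissaOfAbsConv (cc a) < ((2 : ℝ) : EReal)) (he : abscissaOfAbsConv (cc e) < ((2 : ℝ) : EReal)) (Lf : ℂ → ℂ)
    (hL : Differentiable ℂ Lf)
    (hsum : ∀ s : ℂ, 1 < s.re → HasSum (fun m : ℕ => (a m : ℂ) * (m : ℂ) ^ (-s)) (Lf s)) (R : ℝ)
    (hR : ∀ s : ℂ, ‖s - 2‖ ≤ 2 → ‖Lf s‖ ≤ R) (i : ℕ) :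
    SR (cv a e) i ≤ (i.factorial * R / 2 ^ i) *
      ∑ k ∈ range (i + 1), (2 ^ k / k.factorial : ℝ) * SR e k := by
  have hSe : ∀ k, 0 ≤ SR e k := fun k => tsum_nonneg (fun m => by
    have := Real.log_natCast_nonneg m
    have := hpos m
    positivity)
  rw [SR_conv a e ha0 he0 ha he, Finset.mul_sum, ← Finset.sum_range_reflect
    (fun k => (i.factorial * R / 2 ^ i : ℝ) * ((2 ^ k / k.factorial : ℝ) * SR e k))]
  refine Finset.sum_le_sum (fun j hj => ?_)
  have hji : j ≤ i := by simpa [Nat.lt_succ_iff] using hj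
  have e0 : i + 1 - 1 - j = i - j := by omega
  rw [e0]
  have h1 : SR a j ≤ j.factorial * R / 2 ^ j :=
    le_trans (le_abs_self _) (SR_cauchy a ha0 ha Lf hL hsum R hR j)
  calc (i.choose j : ℝ) * SR a j * SR e (i - j)
      ≤ (i.choose j : ℝ) * (j.factorial * R / 2 ^ j) * SR e (i - j) := by
        apply mul_le_mul_of_nonneg_right _ (hSe _)
        exact mul_le_mul_of_nonneg_left h1 (Nat.cast_nonneg _)
    _ = (i.factorial * R / 2 ^ i : ℝ) * ((2 ^ (i - j) / (i - j).factorial : ℝ) * SR e (i - j)) := by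
        have hf : ((i.choose j : ℝ)) * j.factorial * (i - j).factorial = i.factorial := by
          exact_mod_cast Nat.choose_mul_factorial_mul_factorial hji
        have hp : (2 : ℝ) ^ i = 2 ^ j * 2 ^ (i - j) := by rw [← pow_add, Nat.add_sub_cancel' hji]
        rw [← hf, hp]
        have := Nat.factorial_pos (i - j)
        have h3 : ((i - j).factorial : ℝ) ≠ 0 := by positivity
        field_simp

end Pool.Agent.K1H87.GE
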