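import Pool.Agent.K1H79.GE.StmA
import Pool.Agent.K1H87.GE.Taylor

/-!
# Taylor coefficients of Dirichlet series at `s = 2`, end (task W2 of helper79's project)
-/

set_option autoImplicit false

namespace Pool.Agent.K1H87.GE

open Complex LSeries Finset

/-- the constant `∑ m^(-11/8)` -/
noncomputable def ZZ : ℝ := ∑' m : ℕ, (m : ℝ) ^ (-(11 / 8) : ℝ)

theorem summable_ZZ : Summable (fun m : ℕ => (m : ℝ) ^ (-(11 / 8) : ℝ)) :=
  Real.summable_nat_rpow.mpr (by norm_num)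

theorem ZZ_nonneg : 0 ≤ ZZ := tsum_nonneg (fun m => by positivity)

/-- the partial sums of the exponential series -/
noncomputable def PP (i : ℕ) (y : ℝ) : ℝ := ∑ k ∈ range (i + 1), y ^ k / k.factorial

theorem PP_le_exp (i : ℕ) {y : ℝ} (hy : 0 ≤ y) : PP i y ≤ Real.exp y :=
  Real.sum_le_exp_of_nonneg hy (i + 1)

theorem PP_rankin (i : ℕ) {y : ℝ} (hy : 0 ≤ y) : PP i y ≤ 8 ^ i * Real.exp (y / 8) := by
  have h1 : PP i y ≤ 8 ^ i * PP i (y / 8) := by
    unfold PP
    rw [Finset.mul_sum]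
    refine Finset.sum_le_sum (fun k hk => ?_)
    have hki : k ≤ i := by simpa [Nat.lt_succ_iff] using hk
    have h8 : (8 : ℝ) ^ i = 8 ^ k * 8 ^ (i - k) := by rw [← pow_add, Nat.add_sub_cancel' hki]
    have h9 : (1 : ℝ) ≤ 8 ^ (i - k) := one_le_pow₀ (by norm_num)
    have e : (8 : ℝ) ^ i * ((y / 8) ^ k / k.factorial) = 8 ^ (i - k) * (y ^ k / k.factorial) := by
      rw [h8, div_pow]
      have : (8 : ℝ) ^ k ≠ 0 := by positivity
      field_simp
    rw [e]
    have h10 : 0 ≤ y ^ k / (k.factorial : ℝ) := by positivity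
    nlinarith
  refine le_trans h1 (mul_le_mul_of_nonneg_left (PP_le_exp i (by positivity)) (by positivity))

theorem eight_pow_le (i : ℕ) : (8 : ℝ) ^ i ≤ Real.exp (5 / 2 * i) := by
  have h : (8 : ℝ) ≤ Real.exp (5 / 2) := by
    have h1 : (2.7 : ℝ) < Real.exp 1 := lt_trans (by norm_num) Real.exp_one_gt_d9
    have h2 : Real.exp (5 / 2) = Real.exp 1 * Real.exp 1 * Real.exp (1 / 2) := by
      rw [← Real.exp_add, ← Real.exp_add]; norm_num
    have h3 : (1 : ℝ) + 1 / 2 ≤ Real.exp (1 / 2) := by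
      have := Real.add_one_le_exp (1 / 2 : ℝ)
      linarith
    rw [h2]
    have h4 : (2.7 : ℝ) * 2.7 ≤ Real.exp 1 * Real.exp 1 := by nlinarith
    nlinarith
  calc (8 : ℝ) ^ i ≤ (Real.exp (5 / 2)) ^ i := pow_le_pow_left₀ (by norm_num) h i
    _ = Real.exp (5 / 2 * i) := by rw [← Real.exp_nat_mul]; ring_nf

/-- the terms -/
theorem term_bound {e : ℕ → ℝ} {E : ℝ} (hE : 0 < E) (he0 : e 0 = 0)
    (he : ∀ m : ℕ, 0 ≤ e m ∧ e m ≤ E * (m : ℝ) ^ (1 / 4 : ℝ)) (i Y : ℕ)
    (hY : ∀ m : ℕ, Y < m → Real.exp (20 * i) ≤ m) (m : ℕ) :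
    e m * PP i (2 * Real.log m) / (m : ℝ) ^ 2 ≤
      (if m ∈ Finset.Icc 1 Y then e m else 0) + E * (m : ℝ) ^ (-(11 / 8) : ℝ) := by
  rcases Nat.eq_zero_or_pos m with rfl | hm
  · simp [he0]
  have hm' : (0 : ℝ) < m := by exact_mod_cast hm
  have hlog : 0 ≤ Real.log m := Real.log_natCast_nonneg m
  by_cases hmY : m ≤ Y
  · rw [if_pos (Finset.mem_Icc.mpr ⟨hm, hmY⟩)]
    have h1 : PP i (2 * Real.log m) ≤ (m : ℝ) ^ 2 := by
      refine le_trans (PP_le_exp i (by positivity)) (le_of_eq ?_)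
      rw [mul_comm, Real.exp_mul, Real.exp_log hm']
      norm_num
    have h2 : e m * PP i (2 * Real.log m) / (m : ℝ) ^ 2 ≤ e m := by
      rw [div_le_iff₀ (by positivity)]
      exact mul_le_mul_of_nonneg_left h1 (he m).1
    have h3 : 0 ≤ E * (m : ℝ) ^ (-(11 / 8) : ℝ) := by positivity
    linarith
  · rw [if_neg (fun h => hmY (Finset.mem_Icc.mp h).2), zero_add]
    have hYm := hY m (not_le.mp hmY)
    have hlog2 : 20 * (i : ℝ) ≤ Real.log m := (Real.le_log_iff_exp_le hm').mpr hYm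
    have h1 : PP i (2 * Real.log m) ≤ (m : ℝ) ^ (3 / 8 : ℝ) := by
      refine le_trans (PP_rankin i (by positivity)) ?_
      rw [Real.rpow_def_of_pos hm']
      calc (8 : ℝ) ^ i * Real.exp (2 * Real.log m / 8)
          ≤ Real.exp (5 / 2 * i) * Real.exp (2 * Real.log m / 8) :=
            mul_le_mul_of_nonneg_right (eight_pow_le i) (Real.exp_nonneg _)
        _ = Real.exp (5 / 2 * i + 2 * Real.log m / 8) := by rw [Real.exp_add]
        _ ≤ Real.exp (Real.log m * (3 / 8)) := by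
            apply Real.exp_le_exp.mpr
            linarith
    have h2 : e m * PP i (2 * Real.log m) ≤ (E * (m : ℝ) ^ (1 / 4 : ℝ)) * (m : ℝ) ^ (3 / 8 : ℝ) := by
      refine mul_le_mul (he m).2 h1 ?_ (by positivity)
      unfold PP
      positivity
    rw [div_le_iff₀ (by positivity)]
    refine le_trans h2 (le_of_eq ?_)
    rw [mul_assoc, mul_assoc, ← Real.rpow_add hm', ← Real.rpow_natCast (m : ℝ) 2,
      ← Real.rpow_add hm']
    norm_num

theorem upper2 {e : ℕ → ℝ} {E : ℝ} (hE : 0 < E) (he0 : e 0 = 0)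
    (he : ∀ m : ℕ, 0 ≤ e m ∧ e m ≤ E * (m : ℝ) ^ (1 / 4 : ℝ)) (i Y : ℕ)
    (hY : ∀ m : ℕ, Y < m → Real.exp (20 * i) ≤ m) :
    ∑ k ∈ range (i + 1), (2 ^ k / k.factorial : ℝ) * SR e k ≤
      ∑ m ∈ Finset.Icc 1 Y, e m + E * ZZ := by
  have habs : abscissaOfAbsConv (cc e) < ((2 : ℝ) : EReal) := absc_lt (E := E) (fun m => by
    rw [abs_of_nonneg (he m).1]
    exact (he m).2)
  have hs := fun k => summable_SR e he0 habs k
  have h1 : ∑ k ∈ range (i + 1), (2 ^ k / k.factorial : ℝ) * SR e k =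
      ∑' m : ℕ, e m * PP i (2 * Real.log m) / (m : ℝ) ^ 2 := by
    unfold SR
    rw [Finset.sum_congr rfl (fun k _ => (tsum_mul_left (a := (2 ^ k / k.factorial : ℝ))
      (f := fun m : ℕ => e m * (Real.log m) ^ k / (m : ℝ) ^ 2)).symm)]
    rw [← Summable.tsum_finsetSum (fun k _ => (hs k).mul_left _)]
    refine tsum_congr (fun m => ?_)
    unfold PP
    rw [Finset.mul_sum, Finset.sum_div]
    refine Finset.sum_congr rfl (fun k _ => ?_)
    rw [mul_pow]
    ring
  have hsum1 : Summable (fun m : ℕ => e m * PP i (2 * Real.log m) / (m : ℝ) ^ 2) := by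
    have : (fun m : ℕ => e m * PP i (2 * Real.log m) / (m : ℝ) ^ 2) = fun m : ℕ =>
        ∑ k ∈ range (i + 1), (2 ^ k / k.factorial : ℝ) * (e m * (Real.log m) ^ k / (m : ℝ) ^ 2) := by
      funext m
      unfold PP
      rw [Finset.mul_sum, Finset.sum_div]
      refine Finset.sum_congr rfl (fun k _ => ?_)
      rw [mul_pow]
      ring
    rw [this]
    exact summable_sum (fun k _ => (hs k).mul_left _)
  have hsA : Summable (fun m : ℕ => if m ∈ Finset.Icc 1 Y then e m else 0) :=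
    summable_of_ne_finset_zero (s := Finset.Icc 1 Y) (fun m hm => if_neg hm)
  have hsB : Summable (fun m : ℕ => E * (m : ℝ) ^ (-(11 / 8) : ℝ)) := summable_ZZ.mul_left _
  rw [h1]
  refine le_trans (Summable.tsum_le_tsum (fun m => term_bound hE he0 he i Y hY m) hsum1
    (hsA.add hsB)) (le_of_eq ?_)
  rw [Summable.tsum_add hsA hsB, tsum_mul_left]
  congr 1
  rw [tsum_eq_sum (s := Finset.Icc 1 Y) (fun m hm => if_neg hm)]
  exact Finset.sum_congr rfl (fun m hm => if_pos hm)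

/-! ## The lower bound -/

theorem factorial_bound (i : ℕ) (hi : 1 ≤ i) :
    (i.factorial : ℝ) * Real.exp i ≤ Real.exp 1 * i * (i : ℝ) ^ i := by
  induction i, hi using Nat.le_induction with
  | base => simp
  | succ i hi ih =>
    have h1 : Real.exp 1 * (i : ℝ) ^ (i + 1) ≤ ((i : ℝ) + 1) ^ (i + 1) := by
      have h2 : (i : ℝ) / (i + 1) ≤ Real.exp (-(1 / ((i : ℝ) + 1))) := by
        have := Real.add_one_le_exp (-(1 / ((i : ℝ) + 1)))
        have e : -(1 / ((i : ℝ) + 1)) + 1 = (i : ℝ) / (i + 1) := by field_simp; ring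
        rw [e] at this
        exact this
      have h3 : ((i : ℝ) / (i + 1)) ^ (i + 1) ≤ Real.exp (-1) := by
        calc ((i : ℝ) / (i + 1)) ^ (i + 1) ≤ (Real.exp (-(1 / ((i : ℝ) + 1)))) ^ (i + 1) :=
              pow_le_pow_left₀ (by positivity) h2 _
          _ = Real.exp (-1) := by
              rw [← Real.exp_nat_mul]
              congr 1
              push_cast
              field_simp
      rw [div_pow, div_le_iff₀ (by positivity)] at h3
      calc Real.exp 1 * (i : ℝ) ^ (i + 1) ≤ Real.exp 1 * (Real.exp (-1) * ((i : ℝ) + 1) ^ (i + 1)) :=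
            mul_le_mul_of_nonneg_left h3 (Real.exp_nonneg _)
        _ = ((i : ℝ) + 1) ^ (i + 1) := by
            rw [← mul_assoc, ← Real.exp_add]; norm_num
    rw [Nat.factorial_succ]
    push_cast
    rw [Real.exp_add]
    calc ((i : ℝ) + 1) * i.factorial * (Real.exp i * Real.exp 1)
        = ((i : ℝ) + 1) * Real.exp 1 * (i.factorial * Real.exp i) := by ring
      _ ≤ ((i : ℝ) + 1) * Real.exp 1 * (Real.exp 1 * i * (i : ℝ) ^ i) :=
          mul_le_mul_of_nonneg_left ih (by positivity)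
      _ = ((i : ℝ) + 1) * Real.exp 1 * (Real.exp 1 * (i : ℝ) ^ (i + 1)) := by rw [pow_succ]; ring
      _ ≤ ((i : ℝ) + 1) * Real.exp 1 * ((i : ℝ) + 1) ^ (i + 1) :=
          mul_le_mul_of_nonneg_left h1 (by positivity)
      _ = Real.exp 1 * ((i : ℝ) + 1) * ((i : ℝ) + 1) ^ (i + 1) := by ring

theorem SR_lower {b : ℕ → ℝ} (f : ℕ) (hf : 1 ≤ f) (hb0 : b 0 = 0)
    (habs : abscissaOfAbsConv (cc b) < ((2 : ℝ) : EReal))
    (hb1 : ∀ m : ℕ, 1 ≤ m → 0 ≤ b m) (hb2 : ∀ k : ℕ, 1 ≤ k → 1 ≤ b (k ^ f)) (i : ℕ) :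
    ((f : ℝ) / (2 * f - 1) * i) ^ i * Real.exp (-i) / 2 ^ (4 * f) ≤ SR b i := by
  have hf' : (1 : ℝ) ≤ f := by exact_mod_cast hf
  have h2f : (0 : ℝ) < 2 * f - 1 := by linarith
  set u : ℝ := i / (2 * f - 1) with hu
  have hu0 : 0 ≤ u := by positivity
  set K : ℕ := ⌈Real.exp u⌉₊ with hK
  have hK1 : Real.exp u ≤ K := Nat.le_ceil _
  have hK2 : (K : ℝ) ≤ 2 * Real.exp u := by
    have h1 := (Nat.ceil_lt_add_one (Real.exp_nonneg u)).le
    have h2 := Real.one_le_exp hu0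
    linarith
  have hKpos : (0 : ℝ) < K := lt_of_lt_of_le (Real.exp_pos u) hK1
  have hKpos' : 0 < K := by exact_mod_cast hKpos
  have hinj : Function.Injective (fun k : ℕ => k ^ f) := Nat.pow_left_injective (by omega)
  have hbnn : ∀ m : ℕ, 0 ≤ b m := by
    intro m
    rcases Nat.eq_zero_or_pos m with rfl | hm
    · rw [hb0]
    · exact hb1 m hm
  have hs := summable_SR b hb0 habs i
  have hterm : ∀ k ∈ Finset.Ico K (2 * K), ((f : ℝ) / (2 * f - 1) * i) ^ i / (2 * K : ℝ) ^ (2 * f) ≤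
      b (k ^ f) * (Real.log ((k ^ f : ℕ) : ℝ)) ^ i / ((k ^ f : ℕ) : ℝ) ^ 2 := by
    intro k hk
    rw [Finset.mem_Ico] at hk
    have hkpos : 0 < k := lt_of_lt_of_le hKpos' hk.1
    have hkpos' : (0 : ℝ) < k := by exact_mod_cast hkpos
    have hkK : (K : ℝ) ≤ k := by exact_mod_cast hk.1
    have hk2 : (k : ℝ) ≤ 2 * K := by exact_mod_cast hk.2.le
    have hlogk : u ≤ Real.log k := by
      rw [Real.le_log_iff_exp_le hkpos']
      linarith
    have hlog : (f : ℝ) / (2 * f - 1) * i ≤ Real.log ((k ^ f : ℕ) : ℝ) := by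
      push_cast
      rw [Real.log_pow]
      calc (f : ℝ) / (2 * f - 1) * i = f * u := by rw [hu]; ring
        _ ≤ f * Real.log k := mul_le_mul_of_nonneg_left hlogk (by positivity)
    have hpow : ((k ^ f : ℕ) : ℝ) ^ 2 ≤ (2 * K : ℝ) ^ (2 * f) := by
      push_cast
      rw [← pow_mul, mul_comm f 2]
      exact pow_le_pow_left₀ hkpos'.le hk2 _
    have h0 : 0 ≤ (f : ℝ) / (2 * f - 1) * i := by positivity
    have h1 : ((f : ℝ) / (2 * f - 1) * i) ^ i ≤ (Real.log ((k ^ f : ℕ) : ℝ)) ^ i :=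
      pow_le_pow_left₀ h0 hlog _
    have h2 : ((f : ℝ) / (2 * f - 1) * i) ^ i ≤ b (k ^ f) * (Real.log ((k ^ f : ℕ) : ℝ)) ^ i := by
      have h3 := hb2 k hkpos
      have h4 : 0 ≤ (Real.log ((k ^ f : ℕ) : ℝ)) ^ i := le_trans (pow_nonneg h0 _) h1
      nlinarith
    apply div_le_div₀ (le_trans (pow_nonneg h0 _) h2) h2 _ hpow
    positivity
  have hsum : ∑ k ∈ Finset.Ico K (2 * K), b (k ^ f) * (Real.log ((k ^ f : ℕ) : ℝ)) ^ i /
      ((k ^ f : ℕ) : ℝ) ^ 2 ≤ SR b i := by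
    rw [← Finset.sum_image (s := Finset.Ico K (2 * K)) (g := fun k : ℕ => k ^ f)
      (f := fun m : ℕ => b m * (Real.log m) ^ i / (m : ℝ) ^ 2)
      (fun x _ y _ h => hinj h)]
    unfold SR
    refine Summable.sum_le_tsum _ (fun m _ => ?_) hs
    have := hbnn m
    have := Real.log_natCast_nonneg m
    positivity
  refine le_trans ?_ (le_trans (Finset.sum_le_sum hterm) hsum)
  rw [Finset.sum_const, Nat.card_Ico, nsmul_eq_mul]
  have hcard : ((2 * K - K : ℕ) : ℝ) = K := by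
    rw [show 2 * K - K = K by omega]
  rw [hcard]
  have hA : 0 ≤ ((f : ℝ) / (2 * f - 1) * i) ^ i := by positivity
  have hkey : (2 * K : ℝ) ^ (2 * f) ≤ K * (2 ^ (4 * f) * Real.exp i) := by
    obtain ⟨g, rfl⟩ : ∃ g, f = g + 1 := ⟨f - 1, by omega⟩
    have e1 : 2 * (g + 1) = (2 * g + 1) + 1 := by ring
    have hKp : (K : ℝ) ^ (2 * g + 1) ≤ 2 ^ (2 * g + 1) * Real.exp i := by
      calc (K : ℝ) ^ (2 * g + 1) ≤ (2 * Real.exp u) ^ (2 * g + 1) :=
            pow_le_pow_left₀ hKpos.le hK2 _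
        _ = 2 ^ (2 * g + 1) * Real.exp i := by
            rw [mul_pow, ← Real.exp_nat_mul]
            congr 2
            rw [hu]
            push_cast
            have : (2 * ((g : ℝ) + 1) - 1) = 2 * g + 1 := by ring
            rw [this]
            have : (2 * (g : ℝ) + 1) ≠ 0 := by positivity
            field_simp
    calc (2 * K : ℝ) ^ (2 * (g + 1)) = 2 ^ (2 * (g + 1)) * ((K : ℝ) ^ (2 * g + 1) * K) := by
          have e2 : (K : ℝ) ^ (2 * (g + 1)) = (K : ℝ) ^ (2 * g + 1) * K := by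
            calc (K : ℝ) ^ (2 * (g + 1)) = (K : ℝ) ^ ((2 * g + 1) + 1) := congrArg _ e1
              _ = _ := pow_succ _ _
          rw [mul_pow, e2]
      _ ≤ 2 ^ (2 * (g + 1)) * ((2 ^ (2 * g + 1) * Real.exp i) * K) := by
          apply mul_le_mul_of_nonneg_left _ (by positivity)
          exact mul_le_mul_of_nonneg_right hKp hKpos.le
      _ = K * ((2 ^ (2 * (g + 1)) * 2 ^ (2 * g + 1)) * Real.exp i) := by ring
      _ ≤ K * (2 ^ (4 * (g + 1)) * Real.exp i) := by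
          apply mul_le_mul_of_nonneg_left _ hKpos.le
          apply mul_le_mul_of_nonneg_right _ (Real.exp_nonneg _)
          rw [← pow_add]
          exact pow_le_pow_right₀ (by norm_num) (by omega)
  rw [mul_div_assoc', div_le_div_iff₀ (by positivity) (by positivity)]
  calc ((f : ℝ) / (2 * f - 1) * i) ^ i * Real.exp (-i) * (2 * K : ℝ) ^ (2 * f)
      ≤ ((f : ℝ) / (2 * f - 1) * i) ^ i * Real.exp (-i) * (K * (2 ^ (4 * f) * Real.exp i)) :=
        mul_le_mul_of_nonneg_left hkey (by positivity)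
    _ = K * ((f : ℝ) / (2 * f - 1) * i) ^ i * 2 ^ (4 * f) * (Real.exp (-i) * Real.exp i) := by ring
    _ = K * ((f : ℝ) / (2 * f - 1) * i) ^ i * 2 ^ (4 * f) := by
        rw [← Real.exp_add, neg_add_cancel, Real.exp_zero, mul_one]

/-! ## The result -/

theorem t_TA : Pool.Agent.K1H79.GE.S_TA := by
  intro f hf E hE
  have hf' : (1 : ℝ) ≤ f := by exact_mod_cast hf
  have h2f : (0 : ℝ) < 2 * f - 1 := by linarith
  set q : ℝ := 2 * (f / (2 * f - 1)) with hq
  have hq1 : 1 < q := by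
    rw [hq, ← mul_div_assoc, lt_div_iff₀ h2f]
    linarith
  have hq0 : 0 < q := by linarith
  set κ : ℝ := Real.log q with hκ
  have hκ0 : 0 < κ := Real.log_pos hq1
  set c1 : ℝ := κ / 2 * Real.exp (-(κ / 2)) / (Real.exp 1 * 2 ^ (4 * f)) with hc1
  have hc10 : 0 < c1 := by positivity
  set c : ℝ := κ / 80 with hc
  have hc0 : 0 < c := by positivity
  set D : ℝ := (1 + E * ZZ) / c1 with hD
  have hZ := ZZ_nonneg
  have hD0 : 0 < D := by positivity
  refine ⟨c, max (Real.exp 20) (max (1 / c) (max 1 (D ^ (1 / c)))), hc0,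
    lt_of_lt_of_le (Real.exp_pos _) (le_max_left _ _), ?_⟩
  intro R a e Lf hR1 hL hsum hR ha0 he0 ha he hb1 hb2 X hX
  set C : ℝ := max (Real.exp 20) (max (1 / c) (max 1 (D ^ (1 / c)))) with hC
  have hCe : Real.exp 20 ≤ C := le_max_left _ _
  have hCc : 1 / c ≤ C := le_trans (le_max_left _ _) (le_max_right _ _)
  have hC1 : 1 ≤ C := le_trans (le_max_left _ _) (le_trans (le_max_right _ _) (le_max_right _ _))
  have hCD : D ^ (1 / c) ≤ C :=
    le_trans (le_max_right _ _) (le_trans (le_max_right _ _) (le_max_right _ _))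
  have hC0 : 0 < C := by linarith
  have hRC : 1 ≤ R ^ C := Real.one_le_rpow hR1 hC0.le
  have hXC : C ≤ X := le_trans (by nlinarith) hX
  have hX0 : 0 < X := by linarith
  have hX1 : 1 ≤ X := by linarith
  have hlogX : 20 ≤ Real.log X := by
    rw [Real.le_log_iff_exp_le hX0]
    linarith
  -- the choice of i
  set i : ℕ := ⌊Real.log X / 20⌋₊ with hi
  have hi1 : 1 ≤ i := by
    rw [hi, Nat.one_le_floor_iff]
    rw [le_div_iff₀ (by norm_num)]
    linarith
  have hi2 : (i : ℝ) ≤ Real.log X / 20 := Nat.floor_le (by positivity)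
  have hi3 : Real.log X / 20 < i + 1 := Nat.lt_floor_add_one _
  have hi0 : (0 : ℝ) < i := by exact_mod_cast hi1
  have hY : ∀ m : ℕ, ⌊X⌋₊ < m → Real.exp (20 * i) ≤ m := by
    intro m hm
    have h1 : X < m := (Nat.floor_lt hX0.le).mp hm
    have h2 : Real.exp (20 * i) ≤ X := by
      rw [← Real.le_log_iff_exp_le hX0]
      linarith
    linarith
  have haabs : abscissaOfAbsConv (cc a) < ((2 : ℝ) : EReal) := absc_lt ha
  have heabs : abscissaOfAbsConv (cc e) < ((2 : ℝ) : EReal) := absc_lt (E := E) (fun m => by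
    rw [abs_of_nonneg (he m).1]
    exact (he m).2)
  have hbabs : abscissaOfAbsConv (cc (cv a e)) < ((2 : ℝ) : EReal) := by
    rw [← cv_cc]
    exact lt_of_le_of_lt (abscissaOfAbsConv_convolution_le _ _) (max_lt haabs heabs)
  set S : ℝ := ∑ m ∈ Finset.Icc 1 ⌊X⌋₊, e m with hS
  have hup := SR_upper a e ha0 he0 (fun m => (he m).1) haabs heabs Lf hL hsum R hR i
  have hup2 := upper2 hE he0 he i ⌊X⌋₊ hY
  have hlow := SR_lower f hf (b := cv a e) (by simp [cv]) hbabs hb1 hb2 i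
  have hfac := factorial_bound i hi1
  have hfacpos : (0 : ℝ) < i.factorial := by exact_mod_cast Nat.factorial_pos i
  have hR0 : 0 < R := by linarith
  -- combine
  have h1 : ((f : ℝ) / (2 * f - 1) * i) ^ i * Real.exp (-i) / 2 ^ (4 * f) ≤
      (i.factorial * R / 2 ^ i) * (S + E * ZZ) :=
    le_trans hlow (le_trans hup (mul_le_mul_of_nonneg_left hup2 (by positivity)))
  have h2 : q ^ i / i ≤ (Real.exp 1 * 2 ^ (4 * f) * R) * (S + E * ZZ) := by
    have hSpos : 0 ≤ S + E * ZZ := by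
      have : 0 ≤ S := Finset.sum_nonneg (fun m _ => (he m).1)
      positivity
    have e1 : ((f : ℝ) / (2 * f - 1) * i) ^ i * Real.exp (-i) / 2 ^ (4 * f) =
        q ^ i * (i : ℝ) ^ i / (2 ^ i * Real.exp i * 2 ^ (4 * f)) := by
      rw [hq, Real.exp_neg, mul_pow, mul_pow]
      field_simp
    rw [e1, div_le_iff₀ (by positivity)] at h1
    have h3 : q ^ i * (i : ℝ) ^ i ≤ (i.factorial * Real.exp i) * (R * 2 ^ (4 * f) * (S + E * ZZ)) := by
      calc q ^ i * (i : ℝ) ^ i ≤ i.factorial * R / 2 ^ i * (S + E * ZZ) *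
            (2 ^ i * Real.exp i * 2 ^ (4 * f)) := h1
        _ = (i.factorial * Real.exp i) * (R * 2 ^ (4 * f) * (S + E * ZZ)) := by
            have : (2 : ℝ) ^ i ≠ 0 := by positivity
            field_simp
    have h4 : q ^ i * (i : ℝ) ^ i ≤ (Real.exp 1 * i * (i : ℝ) ^ i) * (R * 2 ^ (4 * f) * (S + E * ZZ)) :=
      le_trans h3 (mul_le_mul_of_nonneg_right hfac (by positivity))
    have h5 : q ^ i * (i : ℝ) ^ i ≤ (Real.exp 1 * i * (R * 2 ^ (4 * f) * (S + E * ZZ))) * (i : ℝ) ^ i := by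
      calc q ^ i * (i : ℝ) ^ i ≤ _ := h4
        _ = _ := by ring
    have h6 := le_of_mul_le_mul_right h5 (by positivity)
    rw [div_le_iff₀ hi0]
    calc q ^ i ≤ _ := h6
      _ = _ := by ring
  have h3 : κ / 2 * Real.exp (κ * i / 2) ≤ q ^ i / i := by
    rw [le_div_iff₀ hi0]
    have e1 : q ^ i = Real.exp (κ * i / 2) * Real.exp (κ * i / 2) := by
      rw [← Real.exp_add, ← Real.exp_log hq0, ← Real.exp_nat_mul]
      congr 1
      rw [← hκ]
      ring
    have h4 : κ * i / 2 ≤ Real.exp (κ * i / 2) := by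
      have := Real.add_one_le_exp (κ * i / 2)
      linarith
    rw [e1]
    have h5 : 0 < Real.exp (κ * i / 2) := Real.exp_pos _
    nlinarith
  have h4 : X ^ (2 * c) * Real.exp (-(κ / 2)) ≤ Real.exp (κ * i / 2) := by
    rw [Real.rpow_def_of_pos hX0, ← Real.exp_add]
    apply Real.exp_le_exp.mpr
    rw [hc]
    nlinarith
  have h5 : c1 * X ^ (2 * c) ≤ R * (S + E * ZZ) := by
    have h6 : κ / 2 * (X ^ (2 * c) * Real.exp (-(κ / 2))) ≤
        (Real.exp 1 * 2 ^ (4 * f) * R) * (S + E * ZZ) :=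
      le_trans (mul_le_mul_of_nonneg_left h4 (by positivity)) (le_trans h3 h2)
    rw [hc1, div_mul_eq_mul_div, div_le_iff₀ (by positivity)]
    calc κ / 2 * Real.exp (-(κ / 2)) * X ^ (2 * c) = κ / 2 * (X ^ (2 * c) * Real.exp (-(κ / 2))) := by
          ring
      _ ≤ _ := h6
      _ = _ := by ring
  -- the final comparison
  have h6 : R * D ≤ X ^ c := by
    have h7 : D ^ (1 / c) * R ^ (1 / c) ≤ X := by
      have h8 : R ^ (1 / c) ≤ R ^ C := Real.rpow_le_rpow_of_exponent_le hR1 hCc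
      calc D ^ (1 / c) * R ^ (1 / c) ≤ C * R ^ C :=
            mul_le_mul hCD h8 (by positivity) hC0.le
        _ ≤ X := hX
    have h9 : (D ^ (1 / c) * R ^ (1 / c)) ^ c ≤ X ^ c :=
      Real.rpow_le_rpow (by positivity) h7 hc0.le
    rw [← Real.mul_rpow hD0.le hR0.le, ← Real.rpow_mul (by positivity),
      one_div, inv_mul_cancel₀ hc0.ne', Real.rpow_one] at h9
    linarith
  have h7 : 1 ≤ X ^ c := Real.one_le_rpow hX1 hc0.le
  have h8 : X ^ (2 * c) = X ^ c * X ^ c := by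
    rw [← Real.rpow_add hX0]; ring_nf
  rw [h8] at h5
  have h9 : c1 * (X ^ c * X ^ c) ≥ c1 * (R * D * X ^ c) := by
    apply mul_le_mul_of_nonneg_left _ hc10.le
    exact mul_le_mul_of_nonneg_right h6 (by positivity)
  have h10 : c1 * (R * D * X ^ c) = R * ((1 + E * ZZ) * X ^ c) := by
    rw [hD]
    field_simp
  have h11 : R * ((1 + E * ZZ) * X ^ c) ≤ R * (S + E * ZZ) := by linarith
  have h12 : (1 + E * ZZ) * X ^ c ≤ S + E * ZZ := le_of_mul_le_mul_left h11 hR0
  have h13 : 0 ≤ E * ZZ := by positivity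
  nlinarith

end Pool.Agent.K1H87.GE
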